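import Pool.Agent.helper47.SC.Spec

/-!
# Row sc:LGS: the function `log nsq`
-/

open scoped Topology ContDiff
open Set Filter Metric MeasureTheory
open Pool.Agent.helper90.KMMP (levi hess levi_add levi_normSq_comp levi_real_comp levi_normSq)

namespace Pool.Agent.SC

theorem LGS_levi_nsq (w v : C3) : levi nsq w v = 4 * nsq v := by
  have h1 : AnalyticAt ℂ (fun y : C3 => y.1) w := (ContinuousLinearMap.fst ℂ ℂ (ℂ × ℂ)).analyticAt w
  have h2 : AnalyticAt ℂ (fun y : C3 => y.2.1) w :=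
    ((ContinuousLinearMap.fst ℂ ℂ ℂ).comp (ContinuousLinearMap.snd ℂ ℂ (ℂ × ℂ))).analyticAt w
  have h3 : AnalyticAt ℂ (fun y : C3 => y.2.2) w :=
    ((ContinuousLinearMap.snd ℂ ℂ ℂ).comp (ContinuousLinearMap.snd ℂ ℂ (ℂ × ℂ))).analyticAt w
  have c1 : ContDiffAt ℝ 2 (fun y : C3 => ‖y.1‖ ^ 2) w :=
    Pool.Agent.helper90.KMMP.contDiffAt_normSq_comp h1
  have c2 : ContDiffAt ℝ 2 (fun y : C3 => ‖y.2.1‖ ^ 2) w :=
    Pool.Agent.helper90.KMMP.contDiffAt_normSq_comp h2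
  have c3 : ContDiffAt ℝ 2 (fun y : C3 => ‖y.2.2‖ ^ 2) w :=
    Pool.Agent.helper90.KMMP.contDiffAt_normSq_comp h3
  have e1 : fderiv ℂ (fun y : C3 => y.1) w = ContinuousLinearMap.fst ℂ ℂ (ℂ × ℂ) :=
    (ContinuousLinearMap.fst ℂ ℂ (ℂ × ℂ)).fderiv
  have e2 : fderiv ℂ (fun y : C3 => y.2.1) w =
      (ContinuousLinearMap.fst ℂ ℂ ℂ).comp (ContinuousLinearMap.snd ℂ ℂ (ℂ × ℂ)) :=
    ((ContinuousLinearMap.fst ℂ ℂ ℂ).comp (ContinuousLinearMap.snd ℂ ℂ (ℂ × ℂ))).fderiv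
  have e3 : fderiv ℂ (fun y : C3 => y.2.2) w =
      (ContinuousLinearMap.snd ℂ ℂ ℂ).comp (ContinuousLinearMap.snd ℂ ℂ (ℂ × ℂ)) :=
    ((ContinuousLinearMap.snd ℂ ℂ ℂ).comp (ContinuousLinearMap.snd ℂ ℂ (ℂ × ℂ))).fderiv
  have e : levi nsq w v = levi (fun y : C3 => ‖y.1‖ ^ 2) w v + levi (fun y : C3 => ‖y.2.1‖ ^ 2) w v +
      levi (fun y : C3 => ‖y.2.2‖ ^ 2) w v := by
    have h4 : levi nsq w v = levi (fun y : C3 => (fun z : C3 => ‖z.1‖ ^ 2 + ‖z.2.1‖ ^ 2) y +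
      ‖y.2.2‖ ^ 2) w v := rfl
    rw [h4, levi_add (c1.add c2) c3, levi_add c1 c2]
  rw [e, levi_normSq_comp h1, levi_normSq_comp h2, levi_normSq_comp h3, e1, e2, e3]
  simp only [ContinuousLinearMap.coe_fst', ContinuousLinearMap.comp_apply,
    ContinuousLinearMap.coe_snd', nsq]
  ring

theorem LGS_fderiv_nsq (w v : C3) : fderiv ℝ nsq w v =
    2 * (w.1.re * v.1.re + w.1.im * v.1.im + (w.2.1.re * v.2.1.re + w.2.1.im * v.2.1.im) +
      (w.2.2.re * v.2.2.re + w.2.2.im * v.2.2.im)) := by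
  have d1 : HasFDerivAt (fun y : C3 => y.1) (ContinuousLinearMap.fst ℝ ℂ (ℂ × ℂ)) w :=
    (ContinuousLinearMap.fst ℝ ℂ (ℂ × ℂ)).hasFDerivAt
  have d2 : HasFDerivAt (fun y : C3 => y.2.1)
      ((ContinuousLinearMap.fst ℝ ℂ ℂ).comp (ContinuousLinearMap.snd ℝ ℂ (ℂ × ℂ))) w :=
    ((ContinuousLinearMap.fst ℝ ℂ ℂ).comp (ContinuousLinearMap.snd ℝ ℂ (ℂ × ℂ))).hasFDerivAt
  have d3 : HasFDerivAt (fun y : C3 => y.2.2)
      ((ContinuousLinearMap.snd ℝ ℂ ℂ).comp (ContinuousLinearMap.snd ℝ ℂ (ℂ × ℂ))) w :=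
    ((ContinuousLinearMap.snd ℝ ℂ ℂ).comp (ContinuousLinearMap.snd ℝ ℂ (ℂ × ℂ))).hasFDerivAt
  have h := (d1.norm_sq.add d2.norm_sq).add d3.norm_sq
  have h' : fderiv ℝ nsq w = _ := h.fderiv
  rw [h']
  simp only [add_apply, smul_apply,
    ContinuousLinearMap.comp_apply, innerSL_apply_apply, Complex.inner, ContinuousLinearMap.coe_fst',
    ContinuousLinearMap.coe_snd', Complex.mul_re, Complex.conj_re, Complex.conj_im, nsmul_eq_mul]
  push_cast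
  ring

theorem LGS_cs (w v : C3) : (fderiv ℝ nsq w v) ^ 2 + (fderiv ℝ nsq w (Complex.I • v)) ^ 2 ≤
    4 * (nsq w * nsq v) := by
  rw [LGS_fderiv_nsq, LGS_fderiv_nsq]
  obtain ⟨a, b, c⟩ := w
  obtain ⟨p, q, r⟩ := v
  simp only [nsq, Prod.smul_fst, Prod.smul_snd, smul_eq_mul, Complex.mul_re, Complex.mul_im,
    Complex.I_re, Complex.I_im, Complex.sq_norm, Complex.normSq_apply]
  have h1 := Complex.normSq_nonneg (a * q - b * p)
  have h2 := Complex.normSq_nonneg (a * r - c * p)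
  have h3 := Complex.normSq_nonneg (b * r - c * q)
  simp only [Complex.normSq_apply, Complex.sub_re, Complex.sub_im, Complex.mul_re,
    Complex.mul_im] at h1 h2 h3
  linarith [h1, h2, h3]

theorem LGS (h : NSQ_stmt) : LGS_stmt := by
  obtain ⟨-, -, hsm, -, hz, hnn, -⟩ := h
  have hpos : ∀ w : C3, w ≠ 0 → 0 < nsq w := fun w hw =>
    lt_of_le_of_ne (hnn w) fun h0 => hw ((hz w).1 h0.symm)
  have hd1 : deriv Real.log = fun x => x⁻¹ := Real.deriv_log'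
  have hd2 : ∀ x : ℝ, deriv (fun x : ℝ => x⁻¹) x = -(x ^ 2)⁻¹ := fun x => deriv_inv
  refine ⟨?_, ?_, LGS_levi_nsq, ?_⟩
  · intro w hw
    exact hsm.contDiffAt.log (hpos w hw).ne'
  · intro w hw v
    have hp := hpos w hw
    have hs2 : ContDiffAt ℝ 2 nsq w :=
      hsm.contDiffAt.of_le (WithTop.coe_le_coe.2 (le_top : (2 : ℕ∞) ≤ ⊤))
    have hl2 : ContDiffAt ℝ 2 Real.log (nsq w) := Real.contDiffAt_log.2 hp.ne'
    rw [levi_real_comp hs2 hl2, LGS_levi_nsq, hd1, hd2]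
    have hc := LGS_cs w v
    have h1 : (nsq w)⁻¹ * (4 * nsq v) + -(nsq w ^ 2)⁻¹ *
        ((fderiv ℝ nsq w v) ^ 2 + (fderiv ℝ nsq w (Complex.I • v)) ^ 2) =
        (4 * (nsq w * nsq v) -
          ((fderiv ℝ nsq w v) ^ 2 + (fderiv ℝ nsq w (Complex.I • v)) ^ 2)) / nsq w ^ 2 := by
      field_simp
      ring
    rw [h1]
    exact div_nonneg (by linarith) (sq_nonneg _)
  · intro x v hv
    have hs2 : ContDiffAt ℝ 2 (fun z : ℂ => ‖z‖ ^ 2) x := (contDiff_norm_sq ℝ).contDiffAt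
    have hx : 0 < 1 + ‖x‖ ^ 2 := by positivity
    have hl2 : ContDiffAt ℝ 2 (fun t : ℝ => 1 / 2 * Real.log (1 + t)) (‖x‖ ^ 2) := by
      refine contDiffAt_const.mul (ContDiffAt.log ?_ hx.ne')
      exact contDiffAt_const.add contDiffAt_id
    have e1 : deriv (fun t : ℝ => 1 / 2 * Real.log (1 + t)) = fun t => 1 / 2 * (1 + t)⁻¹ := by
      ext t
      rw [deriv_const_mul_field, deriv_comp_const_add, hd1]
    have e2 : ∀ t : ℝ, deriv (fun t : ℝ => 1 / 2 * (1 + t)⁻¹) t = 1 / 2 * -((1 + t) ^ 2)⁻¹ := by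
      intro t
      have e3 : deriv (fun t : ℝ => (1 + t)⁻¹) t = deriv (fun x : ℝ => x⁻¹) (1 + t) :=
        deriv_comp_const_add (f := fun x : ℝ => x⁻¹) 1 t
      rw [deriv_const_mul_field, e3, hd2]
    have hf : ∀ v : ℂ, fderiv ℝ (fun z : ℂ => ‖z‖ ^ 2) x v = 2 * (x.re * v.re + x.im * v.im) := by
      intro v
      have h5 := (hasFDerivAt_id (𝕜 := ℝ) x).norm_sq
      have h6 : fderiv ℝ (fun z : ℂ => ‖z‖ ^ 2) x = _ := h5.fderiv
      rw [h6]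
      simp only [smul_apply, ContinuousLinearMap.comp_apply,
        innerSL_apply_apply, Complex.inner, Complex.mul_re, Complex.conj_re, Complex.conj_im,
        nsmul_eq_mul, ContinuousLinearMap.id_apply, id_eq]
      push_cast
      ring
    have h7 := levi_real_comp hs2 hl2 v
    rw [h7, levi_normSq, e1, e2, hf, hf]
    have h8 : ‖x‖ ^ 2 = x.re * x.re + x.im * x.im := by
      rw [Complex.sq_norm, Complex.normSq_apply]
    have h9 : ‖v‖ ^ 2 = v.re * v.re + v.im * v.im := by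
      rw [Complex.sq_norm, Complex.normSq_apply]
    have h10 : 0 < ‖v‖ := norm_pos_iff.2 hv
    have h11 : (2 * (x.re * v.re + x.im * v.im)) ^ 2 +
        (2 * (x.re * (Complex.I • v).re + x.im * (Complex.I • v).im)) ^ 2 =
        4 * (‖x‖ ^ 2 * ‖v‖ ^ 2) := by
      rw [h8, h9]
      simp only [smul_eq_mul, Complex.mul_re, Complex.mul_im, Complex.I_re, Complex.I_im]
      ring
    rw [h11]
    have h12 : 1 / 2 * (1 + ‖x‖ ^ 2)⁻¹ * (4 * ‖v‖ ^ 2) +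
        1 / 2 * -((1 + ‖x‖ ^ 2) ^ 2)⁻¹ * (4 * (‖x‖ ^ 2 * ‖v‖ ^ 2)) =
        2 * ‖v‖ ^ 2 / (1 + ‖x‖ ^ 2) ^ 2 := by
      field_simp
      ring
    rw [h12]
    positivity

end Pool.Agent.SC
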