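import Pool.Agent.helper11.SC.WPW
import Pool.Agent.helper12.SC.CT1
import Pool.Agent.helper13.SC.PX
import Pool.Agent.helper15.SC.AB
import Pool.Agent.helper15.SC.AC
import Pool.Agent.helper15.SC.DS
import Pool.Agent.helper16.SC.CEXI
import Pool.Agent.helper16.SC.CLC
import Pool.Agent.helper16.SC.COR
import Pool.Agent.helper18.SC.EX
import Pool.Agent.helper20.SC.WPB
import Pool.Agent.helper23.SC.GP1
import Pool.Agent.helper25.SC.CE
import Pool.Agent.helper25.SC.LR
import Pool.Agent.helper27.SC.CONT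
import Pool.Agent.helper27.SC.SQP
import Pool.Agent.helper3.SC.SQT
import Pool.Agent.helper32.SC.BCN
import Pool.Agent.helper32.SC.FM
import Pool.Agent.helper38.SC.PT
import Pool.Agent.helper4.SC.ARC
import Pool.Agent.helper4.SC.PA
import Pool.Agent.helper43.SC.CRC
import Pool.Agent.helper43.SC.CSUM
import Pool.Agent.helper45.SC.SY
import Pool.Agent.helper51.SC.CO
import Pool.Agent.helper51.SC.MV
import Pool.Agent.helper52.SC.B4
import Pool.Agent.helper55.SC.PI
import Pool.Agent.helper55.SC.SQF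
import Pool.Agent.helper57.SC.AN
import Pool.Agent.helper57.SC.FC
import Pool.Agent.helper6.SC.LIM
import Pool.Agent.helper63.SC.UN
import Pool.Agent.helper71.SC.GP
import Pool.Agent.helper73.SC.PD
import Pool.Agent.helper74.SC.RG
import Pool.Agent.helper74.SC.ZDB
import Pool.Agent.helper78.SC.CN
import Pool.Agent.helper78.SC.ZDW
import Pool.Agent.helper79.SC.GM
import Pool.Agent.helper85.SC.SB
import Pool.Agent.helper87.SC.CNB
import Pool.Agent.helper89.SC.LRX
import Pool.Agent.helper89.SC.MA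
import Pool.Agent.helper91.SC.AW
import Pool.Agent.helper92.SC.CA
import Pool.Agent.helper92.SC.GQ
import Pool.Agent.helper92.SC.MO
import Pool.Agent.helper97.SC.WS
import Pool.Agent.helper99.SC.BC
import Pool.Agent.helper99.SC.LB

/-!
# sp: Cardy part, assembly: the crossing probability of the square tends to one half
-/

namespace Pool.Agent.helper82.SC

theorem asm_GM : GM_stmt := GM MA
theorem asm_GP : GP_stmt := GP (PA MA)
theorem asm_FC : FC_stmt := FC CA MV SY
theorem asm_EX : EX_stmt := EX asm_GM CO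
theorem asm_SUM : SUM_stmt := SUM asm_EX asm_FC
theorem asm_OR : OR_stmt := OR asm_GM asm_GP CO
theorem asm_LC : LC_stmt := LC MV asm_EX asm_GM asm_OR CO
theorem asm_LR : LR_stmt := LR asm_LC MV asm_EX asm_FC
theorem asm_CT1 : CT1_stmt := CT1 MV asm_FC asm_EX
theorem asm_EXI : EXI_stmt := EXI CO asm_EX asm_FC
theorem asm_CN : CN_stmt := CN asm_FC SY asm_CT1 BCN asm_EXI
theorem asm_WPW : WPW_stmt := WPW CA WS
theorem asm_WPB : WPB_stmt := WPB CA CO WS
theorem asm_AC : AC_stmt := AC asm_FC CO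
theorem asm_ARC : ARC_stmt := ARC asm_GP CA CO B4
theorem asm_ZDB : ZDB_stmt := ZDB CA B4
theorem asm_ZDW : ZDW_stmt := ZDW B4 CA
theorem asm_NB : NB_stmt := CNB B4 CA asm_EX asm_ARC asm_FC CO
theorem asm_SQF : SQF_stmt := SQF PT
theorem asm_DS : DS_stmt := DS SQT SQP asm_SQF
theorem asm_PI : PI_stmt := PI PT
theorem asm_AW : AW_stmt := AW asm_PI asm_CN asm_WPW GP1
theorem asm_AB : AB_stmt := AB asm_PI asm_CN asm_WPB GP1 SB
theorem asm_BC (h : ARM_stmt) : BC_stmt := BC asm_AW asm_AC h GQ GP1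
theorem asm_EQ (h : ARM_stmt) : EQ_stmt := EQ asm_AW asm_AB (asm_BC h) asm_SUM h GQ GP1
theorem asm_BA (h : ARM_stmt) : BA_stmt := BA (asm_EQ h) GP1 asm_ARC PX asm_AC asm_SUM
theorem asm_FM (h : ARM_stmt) : FM_stmt :=
  FM asm_DS asm_SUM SY asm_LR (asm_EQ h) (asm_BC h) (asm_BA h)
theorem asm_DN : DN_stmt := DN asm_DS GP1
theorem asm_AN : AN_stmt := AN (LIM asm_DN) (LB asm_DN) (RC (CON CE) RS) MO (UN RG)

/-- The crossing probability of the square tends to one half, from the one-arm bound. -/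
theorem asm_CARDY (h : ARM_stmt) : CARDY_stmt :=
  CARDY (asm_FM h) asm_AN asm_DS PD asm_ZDB asm_ZDW asm_NB LRX SB

end Pool.Agent.helper82.SC
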