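import Mathlib

/-!
# Crossing probability of the square on the triangular lattice: definitions

Sites `V = ℤ × ℤ` (the site `(i, j)` is at `i + j exp (π i / 3)`), triangular faces `F`: the face
`(v, false)` is the upward triangle with lower left corner `v`, the face `(v, true)` is the
downward triangle above its diagonal side. `S f d` are the three sites of the face in
counterclockwise order; the side `d` of `f` joins `S f d` and `S f (d + 1)`; `tw f d` is the face on
the other side of the side `d`. A dart is a face together with one of its sides.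
-/

namespace Pool.Agent.helper82.SC

/-- Sites of the triangular lattice. -/
abbrev V : Type := ℤ × ℤ

/-- Faces of the triangular lattice. -/
abbrev F : Type := (ℤ × ℤ) × Bool

/-- Darts: a face and one of its sides. -/
abbrev Dart : Type := F × Fin 3

/-- The sites of a face, counterclockwise. -/
def S (f : F) (d : Fin 3) : V :=
  if f.2 then
    (if d = 0 then (f.1.1 + 1, f.1.2 + 1) else if d = 1 then (f.1.1, f.1.2 + 1)
      else (f.1.1 + 1, f.1.2))
  else
    (if d = 0 then f.1 else if d = 1 then (f.1.1 + 1, f.1.2) else (f.1.1, f.1.2 + 1))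

/-- The face on the other side of the side `d`. -/
def tw (f : F) (d : Fin 3) : F :=
  if f.2 then
    (if d = 0 then ((f.1.1, f.1.2 + 1), false) else if d = 1 then (f.1, false)
      else ((f.1.1 + 1, f.1.2), false))
  else
    (if d = 0 then ((f.1.1, f.1.2 - 1), true) else if d = 1 then (f.1, true)
      else ((f.1.1 - 1, f.1.2), true))

/-- The same side seen from the other face. -/
def star (x : Dart) : Dart := (tw x.1 x.2, x.2)

theorem tw_tw (f : F) (d : Fin 3) : tw (tw f d) d = f := by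
  obtain ⟨⟨i, j⟩, b⟩ := f
  cases b <;> fin_cases d <;> simp [tw]

theorem S_tw (f : F) (d : Fin 3) : S (tw f d) d = S f (d + 1) := by
  obtain ⟨⟨i, j⟩, b⟩ := f
  cases b <;> fin_cases d <;> simp [tw, S]

theorem S_tw' (f : F) (d : Fin 3) : S (tw f d) (d + 1) = S f d := by
  obtain ⟨⟨i, j⟩, b⟩ := f
  cases b <;> fin_cases d <;> simp [tw, S]

@[simp] theorem star_star (x : Dart) : star (star x) = x := by
  simp [star, tw_tw]

theorem tw_ne (f : F) (d : Fin 3) : tw f d ≠ f := by
  obtain ⟨⟨i, j⟩, b⟩ := f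
  cases b <;> fin_cases d <;> simp [tw]

theorem star_ne (x : Dart) : star x ≠ x := by
  intro h
  exact tw_ne x.1 x.2 (congrArg Prod.fst h)

theorem S_injective (f : F) : Function.Injective (S f) := by
  obtain ⟨⟨i, j⟩, b⟩ := f
  intro d e h
  cases b <;> fin_cases d <;> fin_cases e <;> simp_all [S]

/-- Adjacency of sites. -/
def TAdj (u v : V) : Prop :=
  v = (u.1 + 1, u.2) ∨ v = (u.1 - 1, u.2) ∨ v = (u.1, u.2 + 1) ∨ v = (u.1, u.2 - 1) ∨
    v = (u.1 + 1, u.2 - 1) ∨ v = (u.1 - 1, u.2 + 1)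

theorem TAdj.symm {u v : V} (h : TAdj u v) : TAdj v u := by
  obtain ⟨i, j⟩ := u
  obtain ⟨k, l⟩ := v
  simp only [TAdj, Prod.mk.injEq] at h ⊢
  omega

theorem TAdj_S (f : F) (d e : Fin 3) (h : d ≠ e) : TAdj (S f d) (S f e) := by
  obtain ⟨⟨i, j⟩, b⟩ := f
  cases b <;> fin_cases d <;> fin_cases e <;> simp_all [TAdj, S]

/-- Every pair of adjacent sites is a side of a face. -/
theorem TAdj.exists_dart {u v : V} (h : TAdj u v) :
    ∃ x : Dart, S x.1 x.2 = u ∧ S x.1 (x.2 + 1) = v := by
  obtain ⟨i, j⟩ := u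
  rcases h with h | h | h | h | h | h <;> subst h
  · exact ⟨(((i, j), false), 0), by simp [S]⟩
  · exact ⟨(((i - 1, j - 1), true), 0), by simp [S]⟩
  · exact ⟨(((i - 1, j), true), 2), by simp [S]⟩
  · exact ⟨(((i, j - 1), false), 2), by simp [S]⟩
  · exact ⟨(((i, j - 1), true), 1), by simp [S]⟩
  · exact ⟨(((i - 1, j), false), 1), by simp [S]⟩

/-- `u` and `v` are joined by a path of adjacent sites in `W` (both end points in `W`). -/
def Con (W : Set V) (u v : V) : Prop :=
  u ∈ W ∧ Relation.ReflTransGen (fun a b => TAdj a b ∧ b ∈ W) u v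

/-- The fraction of the sets `s ⊆ U` with the property `E`; `s` is the set of the white sites of `U`
and `U \ s` the set of its black sites. -/
noncomputable def prob (U : Finset V) (E : Finset V → Prop) : ℝ :=
  ({s : Finset V | s ⊆ U ∧ E s}.ncard : ℝ) / 2 ^ U.card

/-- A discrete domain: a finite set `U` of sites, the complement is divided into three sectors, the
three corner darts `a m` are the sides between different sectors; counterclockwise the order is
`sector m + 1`, corner `a m`, `sector m + 2`. -/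
structure Dom where
  /-- the sites of the domain -/
  U : Finset V
  /-- the sector of an exterior site -/
  sec : V → Fin 3
  /-- the corner darts -/
  a : Fin 3 → Dart
  third : ∀ m, S (a m).1 ((a m).2 + 2) ∈ U
  first : ∀ m, S (a m).1 (a m).2 ∉ U
  second : ∀ m, S (a m).1 ((a m).2 + 1) ∉ U
  sec_first : ∀ m, sec (S (a m).1 (a m).2) = m + 1
  sec_second : ∀ m, sec (S (a m).1 ((a m).2 + 1)) = m + 2
  only : ∀ f d, S f (d + 2) ∈ U → S f d ∉ U → S f (d + 1) ∉ U →
    sec (S f d) ≠ sec (S f (d + 1)) → ∃ m, (f, d) = a m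
  outer : ∀ f d, S f (d + 2) ∈ U → S f d ∉ U → S f (d + 1) ∉ U → S (tw f d) (d + 2) ∉ U
  poincare : ∀ ψ : Dart → ZMod 2, (∀ f, ψ (f, 0) + ψ (f, 1) + ψ (f, 2) = 0) →
    (∀ x, ψ (star x) = ψ x) →
    (∀ x : Dart, S x.1 x.2 ∉ U → S x.1 (x.2 + 1) ∉ U → ψ x = 0) →
    ∃ c : V → ZMod 2, (∀ v, v ∉ U → c v = 0) ∧
      ∀ x : Dart, ψ x = c (S x.1 x.2) + c (S x.1 (x.2 + 1))
  fconn : ∀ f g : F, (∃ d, S f d ∈ U) → (∃ d, S g d ∈ U) →
    Relation.ReflTransGen (fun f g => (∃ d, g = tw f d) ∧ ∃ d, S g d ∈ U) f g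

namespace Dom

variable (D : Dom)

/-- Faces with a site in the domain. -/
def FU (f : F) : Prop := ∃ d, S f d ∈ D.U

/-- Walls between the exterior sectors. -/
def wall (x : Dart) : ZMod 2 := if D.sec (S x.1 x.2) = D.sec (S x.1 (x.2 + 1)) then 0 else 1

/-- Wall configurations with sources at the three corners and at the middle of the side `z`:
even at every face of the domain, symmetric except at `z`, prescribed outside. -/
def Conf (z : Dart) : Set (Dart → ZMod 2) :=
  {ψ | (∀ f, D.FU f → ψ (f, 0) + ψ (f, 1) + ψ (f, 2) = 0) ∧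
    (∀ x, ψ (star x) = ψ x + (if x = z ∨ x = star z then 1 else 0)) ∧
    ∀ x : Dart, ¬ D.FU x.1 → ψ x = D.wall x}

/-- Two wall darts are linked at a common face of the domain or as the two halves of a side. -/
def Link (ψ : Dart → ZMod 2) (x y : Dart) : Prop :=
  ψ x = 1 ∧ ψ y = 1 ∧
    ((D.FU x.1 ∧ x.1 = y.1 ∧ x ≠ y) ∨ ((D.FU x.1 ∨ D.FU y.1) ∧ y = star x))

/-- Connection by walls. -/
def Cn (ψ : Dart → ZMod 2) : Dart → Dart → Prop := Relation.ReflTransGen (D.Link ψ)

end Dom

/-- The half of the side `z` which belongs to the configuration. -/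
noncomputable def zp (ψ : Dart → ZMod 2) (z : Dart) : Dart := if ψ z = 1 then z else star z

namespace Dom

variable (D : Dom)

/-- The source `z` is joined to the corner `j` (to the exterior half of the corner side). -/
def Jn (ψ : Dart → ZMod 2) (z : Dart) (j : Fin 3) : Prop := D.Cn ψ (zp ψ z) (star (D.a j))

/-- The probability that the source `z` is joined to the corner `j`. -/
noncomputable def P (j : Fin 3) (z : Dart) : ℝ :=
  ({ψ | ψ ∈ D.Conf z ∧ D.Jn ψ z j}.ncard : ℝ) / 2 ^ D.U.card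

/-- Faces of the domain with a site in `π`. -/
def Bf (π : Set V) (f : F) : Prop := D.FU f ∧ ∃ d, S f d ∈ π

/-- The fraction of the configurations without bulk source (`z = a j`) for which the walls joining
the two other corners visit a face which touches `π`. -/
noncomputable def Mx (j : Fin 3) (π : Set V) : ℝ :=
  ({ψ | ψ ∈ D.Conf (D.a j) ∧ ∃ x, D.Bf π x.1 ∧ D.Cn ψ (star (D.a (j + 1))) x}.ncard : ℝ) /
    2 ^ D.U.card

end Dom

/-- The cube root of unity `exp (2 π i / 3)`. -/
noncomputable def tau : ℂ := ⟨-1 / 2, Real.sqrt 3 / 2⟩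

/-- Position of a site in the plane. -/
noncomputable def ps (v : V) : ℂ := ⟨v.1 + v.2 / 2, Real.sqrt 3 / 2 * v.2⟩

/-- Position of the middle of the side of a dart. -/
noncomputable def pd (x : Dart) : ℂ := (ps (S x.1 x.2) + ps (S x.1 (x.2 + 1))) / 2

/-! ## The square -/

/-- Number of the top row of the `n × n` square: the largest `m` with `m √3 / 2 ≤ n`. -/
def top (n : ℕ) : ℕ := Nat.sqrt (4 * n ^ 2 / 3)

theorem top_spec (n : ℕ) (j : ℕ) : j ≤ top n ↔ 3 * j ^ 2 ≤ 4 * n ^ 2 := by
  unfold top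
  rw [Nat.le_sqrt', Nat.le_div_iff_mul_le (by norm_num)]
  omega

/-- The sites of the `n × n` square `[0, n]²`. -/
noncomputable def Usq (n : ℕ) : Finset V :=
  ((Finset.Icc (-(2 * n : ℤ)) (2 * n)) ×ˢ (Finset.Icc (0 : ℤ) (top n))).filter
    fun v => 0 ≤ 2 * v.1 + v.2 ∧ 2 * v.1 + v.2 ≤ 2 * n

theorem top_le (n : ℕ) : top n ≤ 2 * n := by
  have h := (top_spec n (top n)).1 le_rfl
  by_contra hc
  push Not at hc
  nlinarith

theorem mem_Usq (n : ℕ) (v : V) : v ∈ Usq n ↔
    0 ≤ v.2 ∧ v.2 ≤ top n ∧ 0 ≤ 2 * v.1 + v.2 ∧ 2 * v.1 + v.2 ≤ 2 * n := by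
  have h := top_le n
  simp only [Usq, Finset.mem_filter, Finset.mem_product, Finset.mem_Icc]
  constructor
  · rintro ⟨⟨⟨h1, h2⟩, h3, h4⟩, h5, h6⟩
    exact ⟨h3, h4, h5, h6⟩
  · rintro ⟨h1, h2, h3, h4⟩
    refine ⟨⟨⟨by omega, by omega⟩, h1, h2⟩, h3, h4⟩

/-- Sector of an exterior site of the square: `0` bottom and right, `1` top, `2` left. -/
def secsq (n : ℕ) (v : V) : Fin 3 :=
  if v.2 < 0 then 0 else if (top n : ℤ) < v.2 then 1 else if 2 * v.1 + v.2 < 0 then 2 else 0

/-- The corner darts of the square: `0` top left, `1` bottom left, `2` top right. -/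
def asq (n : ℕ) (m : Fin 3) : Dart :=
  if m = 0 then (((-((top n : ℤ) / 2) - 1, (top n : ℤ)), false), 2)
  else if m = 1 then (((-1, -1), true), 1)
  else ((((2 * (n : ℤ) - top n) / 2, (top n : ℤ)), false), 1)

/-- Left to right black crossing of the square (`s` is the set of the white sites). -/
def LRb (n : ℕ) (s : Finset V) : Prop :=
  ∃ u v : V, 2 * u.1 + u.2 ≤ 1 ∧ 2 * (n : ℤ) - 1 ≤ 2 * v.1 + v.2 ∧ Con (↑(Usq n \ s)) u v

end Pool.Agent.helper82.SC
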