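import Pool.Agent.helper82.SC.Defs

/-!
# sp: Cardy part, discrete statements (stage A)

Paper: /team-store/SP_CARDY_helper82.md. Every `XX_stmt` is to be proved as
`theorem XX (h : YY_stmt) ... : XX_stmt` in `Pool/Agent/<seat>/SC/XX.lean`,
namespace `Pool.Agent.helper82.SC`; any other statement may be a hypothesis.
-/

namespace Pool.Agent.helper82.SC

open Relation

/-! ## General matching and parity -/

/-- `(x, true)` is an incidence when `σ x = x`, `(x, false)` when `ρ x = x`. -/
def Fx {X : Type} (σ ρ : X → X) (i : X × Bool) : Prop := if i.2 then σ i.1 = i.1 else ρ i.1 = i.1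

/-- MATCHING. Two involutions of a finite set: in the class of an incidence there is exactly one
other incidence. Proof: `p = ρ ∘ σ` is a permutation. For `(x, true)` (`σ x = x`) the class of `x` is the
`p`-orbit of `x` (`σ (p^i x) = p^(-i) x`, `ρ (p^i x) = p^(1-i) x`); with `m` its length: `σ` fixes
`p^i x` iff `m ∣ 2 i`, `ρ` fixes it iff `m ∣ 2 i - 1`: for `m` even the other incidence is
`(p^(m/2) x, true)`, for `m` odd it is `(p^((m+1)/2) x, false)` (possibly `x` itself when `m = 1`).
For `(x, false)` exchange the roles of `σ` and `ρ`. -/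
def MA_stmt : Prop := ∀ (X : Type) [Finite X] (σ ρ : X → X), Function.Involutive σ →
  Function.Involutive ρ → ∀ i : X × Bool, Fx σ ρ i →
    ∃! i' : X × Bool, i' ≠ i ∧ Fx σ ρ i' ∧ ReflTransGen (fun a b => b = σ a ∨ b = ρ a) i.1 i'.1

/-- PARITY. If `L` changes at every step which moves, then two different incidences of the same
class have different `L` when they are of the same kind and the same `L` otherwise.
Proof: follow the path which alternates `σ` and `ρ` from `i` until it meets an incidence `i''` (finite);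
its number of steps is odd iff the kinds agree; by `MA` the incidence `i''` is `i'`. -/
def PA_stmt : Prop := ∀ (X : Type) [Finite X] (σ ρ : X → X), Function.Involutive σ →
  Function.Involutive ρ → ∀ L : X → ZMod 2, (∀ x, σ x ≠ x → L (σ x) = L x + 1) →
    (∀ x, ρ x ≠ x → L (ρ x) = L x + 1) → ∀ i i' : X × Bool, i' ≠ i → Fx σ ρ i → Fx σ ρ i' →
      ReflTransGen (fun a b => b = σ a ∨ b = ρ a) i.1 i'.1 →
        L i'.1 = L i.1 + (if i.2 = i'.2 then 1 else 0)

/-- Links at the faces of `K` and across the sides with at least one face in `K`. -/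
def LinkK (K : Set F) (ψ : Dart → ZMod 2) (x y : Dart) : Prop :=
  ψ x = 1 ∧ ψ y = 1 ∧ ((x.1 ∈ K ∧ x.1 = y.1 ∧ x ≠ y) ∨ ((x.1 ∈ K ∨ y.1 ∈ K) ∧ y = star x))

/-- Connection by links. -/
def CnK (K : Set F) (ψ : Dart → ZMod 2) : Dart → Dart → Prop := ReflTransGen (LinkK K ψ)

/-- Incidences of a wall configuration on `K`: `(x, true)` is a wall dart outside `K` on a side of
`K`; `(x, false)` is a wall dart whose other half is not in the configuration. -/
def Inc (K : Set F) (ψ : Dart → ZMod 2) (i : Dart × Bool) : Prop :=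
  ψ i.1 = 1 ∧ (i.1.1 ∈ K ∨ (star i.1).1 ∈ K) ∧
    (if i.2 then i.1.1 ∉ K else ψ (star i.1) = 0)

/-- Matching for wall configurations. From `MA` with
`X = {x // ψ x = 1 ∧ (x.1 ∈ K ∨ (star x).1 ∈ K)}`, `σ x` = the other wall dart at the same face when
`x.1 ∈ K`, else `x`; `ρ x = star x` when `ψ (star x) = 1`, else `x`. -/
def GM_stmt : Prop := ∀ (K : Set F) (ψ : Dart → ZMod 2), K.Finite →
  (∀ f ∈ K, ψ (f, 0) + ψ (f, 1) + ψ (f, 2) = 0) → ∀ i, Inc K ψ i →
    ∃! i' : Dart × Bool, i' ≠ i ∧ Inc K ψ i' ∧ CnK K ψ i.1 i'.1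

/-- Parity for walls of a colouring `c`, from `PA` with `L x = c (S x.1 x.2)`. -/
def GP_stmt : Prop := ∀ (K : Set F) (ψ : Dart → ZMod 2) (c : V → ZMod 2), K.Finite →
  (∀ x : Dart, x.1 ∈ K → ψ x = c (S x.1 x.2) + c (S x.1 (x.2 + 1))) →
    ∀ i i' : Dart × Bool, i' ≠ i → Inc K ψ i → Inc K ψ i' → CnK K ψ i.1 i'.1 →
      c (S i'.1.1 i'.1.2) = c (S i.1.1 i.1.2) + (if i.2 = i'.2 then 1 else 0)

/-! ## Configurations -/

/-- Add `1` at the darts `(f, d)` and `(f, e)`: moves the source from `(f, d)` to `(f, e)`. -/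
def mv (f : F) (d e : Fin 3) (ψ : Dart → ZMod 2) (x : Dart) : ZMod 2 :=
  ψ x + (if x = (f, d) then 1 else 0) + (if x = (f, e) then 1 else 0)

/-- Moves. (Evenness at `f`: two darts of `f` are changed; the asymmetry moves.) -/
def MV_stmt : Prop := ∀ (D : Dom) (f : F) (d e : Fin 3), D.FU f →
  Set.BijOn (mv f d e) (D.Conf (f, d)) (D.Conf (f, e))

/-- The side `z` seen from both faces. -/
def SY_stmt : Prop := ∀ (D : Dom) (z : Dart), D.Conf (star z) = D.Conf z ∧
  (∀ ψ ∈ D.Conf z, zp ψ (star z) = zp ψ z) ∧ ∀ j, D.P j (star z) = D.P j z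

/-- The colouring with exterior values `β` and white set `s` in the domain. -/
noncomputable def cx (D : Dom) (β : V → ZMod 2) (s : Finset V) (v : V) : ZMod 2 :=
  open Classical in if v ∈ D.U then (if v ∈ s then 1 else 0) else β v

/-- The walls of the colouring. -/
noncomputable def psix (D : Dom) (β : V → ZMod 2) (s : Finset V) (x : Dart) : ZMod 2 :=
  open Classical in if D.FU x.1 then cx D β s (S x.1 x.2) + cx D β s (S x.1 (x.2 + 1))
    else D.wall x

/-- Exterior values `β` compatible with a source at the boundary dart `z`. -/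
def Bdry (D : Dom) (β : V → ZMod 2) (z : Dart) : Prop :=
  D.FU z.1 ∧ S z.1 z.2 ∉ D.U ∧ S z.1 (z.2 + 1) ∉ D.U ∧
    ∀ x : Dart, D.FU x.1 → S x.1 x.2 ∉ D.U → S x.1 (x.2 + 1) ∉ D.U →
      β (S x.1 x.2) + β (S x.1 (x.2 + 1)) = D.wall x + (if x = z then 1 else 0)

/-- Configurations with a source on the boundary are colourings. Surjectivity: Poincare for the
difference with `psix D β ∅` (use `D.outer`); injectivity: a colouring which vanishes off `U` and has no
walls at the faces of `U` is zero (go to the left until the site is outside). -/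
def CA_stmt : Prop := ∀ (D : Dom) (β : V → ZMod 2) (z : Dart), Bdry D β z →
  Set.BijOn (psix D β) {s | s ⊆ D.U} (D.Conf z)

/-- Number of configurations: `c ↦ ψ₀ + dc` is a bijection (Poincare); nonempty: colourings for
`z = a 0`, then moves along `D.fconn`. -/
def FC_stmt : Prop := ∀ (D : Dom) (z : Dart), D.FU z.1 →
  (D.Conf z).Finite ∧ (D.Conf z).ncard = 2 ^ D.U.card

/-- The faces of the domain are finitely many, and the outer incidences are the corners. -/
def CO_stmt : Prop := ∀ (D : Dom), {f | D.FU f}.Finite ∧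
  (∀ m, D.FU (D.a m).1 ∧ ¬ D.FU (star (D.a m)).1 ∧ D.wall (D.a m) = 1 ∧ D.wall (star (D.a m)) = 1) ∧
  (∀ x : Dart, ¬ D.FU x.1 → D.FU (star x).1 → D.wall x = 1 → ∃ m, x = star (D.a m)) ∧
  Function.Injective D.a

/-- Existence and uniqueness of the corner joined to the source; the two other corners are
joined to each other and to nothing else. From `GM` with `K = {f | FU f}`: the incidences are exactly
`(star (a m), true)` and `(zp ψ z, false)` (also when `z = a m`, where `zp ψ z = star (a m)`). -/
def EX_stmt : Prop := ∀ (D : Dom) (z : Dart), D.FU z.1 → ∀ ψ ∈ D.Conf z,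
  ∃ j, D.Jn ψ z j ∧ (∀ k, D.Jn ψ z k → k = j) ∧
    (∀ k l, k ≠ j → l ≠ j → D.Cn ψ (star (D.a k)) (star (D.a l))) ∧
    ∀ k, k ≠ j → ¬ D.Cn ψ (star (D.a k)) (star (D.a j)) ∧ ¬ D.Cn ψ (star (D.a k)) (zp ψ z)

/-- From `EX` and `FC`. -/
def SUM_stmt : Prop := ∀ (D : Dom) (z : Dart), D.FU z.1 → ∑ j, D.P j z = 1

/-! ## The local relation -/

/-- The faces of the domain other than `f`. -/
def Kf (D : Dom) (f : F) : Set F := {g | D.FU g ∧ g ≠ f}

/-- All sides of the face meet the domain. -/
def Inner (D : Dom) (f : F) : Prop := ∀ d, S f d ∈ D.U ∨ S f (d + 1) ∈ D.U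

/-- Orientation. `ψ ∈ Conf (f, d)` whose three outer darts at `f` are walls, the outer dart at `d` is joined
to the corner `m`, the outer dart `d + 1` to the corner `p` and the outer dart `d + 2` to the corner `q` outside
`f`, `m, p, q` different. Then `p = m + 1`.
Proof: `ξ` = the class of `star (f, d)` in `CnK (Kf D f) ψ` (as a set of darts); `ω = ψ` off `ξ`, `0` on `ξ`:
symmetric away from ..., even at all faces of the domain, `ω x = 0` on the exterior half of the corner `m`;
`ω + dβ` (`β = 1` on the sector `m`, `0` else) is as in Poincare, so `ω = dc` on the darts of the faces of the domain,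
`c = β` off `U`. `ω = 0` on all darts of faces met by `ξ`, so `c` is constant `= c (S (a m)) = 0` along `ξ`, hence
`c (S f d) = c (S f (d + 1)) = 0` and `c (S f (d + 2)) = 1` (the darts `d + 1`, `d + 2` of `f` are walls of `ω`). `GP` on `Kf D f` for
the incidences `(star (a p), true)` and `(star (f, d + 1), ·)`: in the graph without `f` the dart
`(f, d + 1)` is the outer incidence `((f, d + 1), true)`, `L (f, d + 1) = c (S f (d + 1)) = 0`, so
`L (star (a p)) = 1`, i.e. `c (S (a p) + 1) = 1`: the sector `p + 2` is `m`, i.e. `p = m + 1`. -/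
def OR_stmt : Prop := ∀ (D : Dom) (f : F) (d m p q : Fin 3) (ψ : Dart → ZMod 2), D.FU f →
  Inner D f → ψ ∈ D.Conf (f, d) → (∀ e, ψ (star (f, e)) = 1) → m ≠ p → m ≠ q → p ≠ q →
    CnK (Kf D f) ψ (star (f, d)) (star (D.a m)) →
    CnK (Kf D f) ψ (star (f, d + 1)) (star (D.a p)) →
    CnK (Kf D f) ψ (star (f, d + 2)) (star (D.a q)) → p = m + 1

/-- The three positions of the source at a face. Either the joined corner does not depend on the side, or it turns
with the side. Proof: `o e = ψ (star (f, e))` does not change under the moves and `∑ o e = 1`.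
(A) one `o e = 1`: the walls of `Kf` start at `star (f, e)`; in every position the source is joined to `star (f, e)`.
(B) all `o e = 1`: `GM` on `Kf D f` (same connections between darts off `f` for the three positions); either
two of the `star (f, e)` are joined outside `f` and all three corners agree, or they are joined to three
different corners and `OR` (for every `d`) gives the rotation. -/
def LC_stmt : Prop := ∀ (D : Dom) (f : F) (ψ : Dart → ZMod 2), D.FU f → Inner D f →
  ψ ∈ D.Conf (f, 0) → ∃ j, (∀ d : Fin 3, D.Jn (mv f 0 d ψ) (f, d) j) ∨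
    ∀ d : Fin 3, D.Jn (mv f 0 d ψ) (f, d) (j + d)

/-- The local relation, from `LC`, `MV`, `EX`, `FC` and `1 + tau + tau ^ 2 = 0`. -/
def LR_stmt : Prop := ∀ (D : Dom) (f : F), D.FU f → Inner D f →
  ∑ d : Fin 3, ∑ j : Fin 3, tau ^ ((d : ℕ) + (j : ℕ)) * (D.P j (f, d) : ℂ) = 0

/-! ## Continuity -/

/-- Configurations with source `z` joined to the corner `j` whose other wall (between the corners `j + 1` and
`j + 2`) visits a face of `B`. -/
noncomputable def My (D : Dom) (z : Dart) (j : Fin 3) (B : Set F) : ℝ :=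
  ({ψ | ψ ∈ D.Conf z ∧ D.Jn ψ z j ∧
    ∃ x : Dart, x.1 ∈ B ∧ D.Cn ψ (star (D.a (j + 1))) x}.ncard : ℝ) / 2 ^ D.U.card

/-- The same with a wall which does not visit `B`. -/
noncomputable def Mn (D : Dom) (z : Dart) (j : Fin 3) (B : Set F) : ℝ :=
  ({ψ | ψ ∈ D.Conf z ∧ D.Jn ψ z j ∧
    ¬ ∃ x : Dart, x.1 ∈ B ∧ D.Cn ψ (star (D.a (j + 1))) x}.ncard : ℝ) / 2 ^ D.U.card

/-- One move inside `B`: the class of `star (a (j + 1))` does not visit `f`, so it is not changed by the move, still
contains `star (a (j + 2))`, and by `EX` the source is still joined to `j`. -/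
def CT1_stmt : Prop := ∀ (D : Dom) (B : Set F) (f : F) (d e j : Fin 3), f ∈ B → D.FU f →
  Mn D (f, d) j B ≤ Mn D (f, e) j B

/-- `π` is connected. -/
def Cnd (π : Set V) : Prop := ∀ u ∈ π, ∀ v ∈ π, Con π u v

/-- The faces touching a connected set of sites of the domain are connected: turn around a site,
and adjacent sites have a common face. -/
def BCN_stmt : Prop := ∀ (D : Dom) (π : Set V), π ⊆ (D.U : Set V) → Cnd π → ∀ f g, D.Bf π f →
  D.Bf π g → ReflTransGen (fun f g => (∃ d, g = tw f d) ∧ D.Bf π g) f g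

/-- Injection: choose for every value `ζ` of the class of `star (a (j + 1))` (as a set of darts) one configuration
`ψ_ζ ∈ Conf z` of the set in question with this class, `ρ_ζ` = the indicator of its class of `zp ψ_ζ z` (it contains
`star (a j)`, and is disjoint from `ζ`, no common face). `ψ ↦ ψ + ρ_ζ(ψ)` on the faces of the domain (not at `star (a j)`
itself) is in `Conf (a j)`, the class of `star (a (j + 1))` is still `ζ`, so the map is injective. -/
def EXI_stmt : Prop := ∀ (D : Dom) (z : Dart) (j : Fin 3) (B : Set F), D.FU z.1 →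
  (∀ f ∈ B, D.FU f) → My D z j B ≤ My D (D.a j) j B

/-- From `CT1`, `BCN`, `SY`, `EXI` (`P j z = My + Mn`, finiteness from `FC`); `Mx D j π = My D (a j) j (Bf π)`
because for `z = a j` the source is joined to `j` (by `ReflTransGen.refl`). -/
def CN_stmt : Prop := ∀ (D : Dom) (π : Set V) (z z' : Dart) (j : Fin 3), π ⊆ (D.U : Set V) →
  Cnd π → D.Bf π z.1 → D.Bf π z'.1 → |D.P j z - D.P j z'| ≤ D.Mx j π

/-- Both sides of a wall: in a colouring the sites of colour `k` on the sides of two joined walls are joined by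
a path of colour `k`. Induction on the connection. -/
def WS_stmt : Prop := ∀ (D : Dom) (ψ : Dart → ZMod 2) (c : V → ZMod 2) (k : ZMod 2) (x y : Dart),
  (∀ x : Dart, D.FU x.1 → ψ x = c (S x.1 x.2) + c (S x.1 (x.2 + 1))) → x ≠ y → D.Cn ψ x y →
  ∀ u v, (u = S x.1 x.2 ∨ u = S x.1 (x.2 + 1)) → (v = S y.1 y.2 ∨ v = S y.1 (y.2 + 1)) →
    c u = k → c v = k → Con {w | c w = k} u v

/-- White path in the domain from a face touching `π` to a neighbour of the sector `j`. -/
def ArmW (D : Dom) (j : Fin 3) (π : Set V) (s : Finset V) : Prop :=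
  ∃ u w : V, Con (s : Set V) u w ∧ (∃ f d, D.Bf π f ∧ S f d = u) ∧
    ∃ v, v ∉ D.U ∧ TAdj w v ∧ D.sec v = j

/-- Black path in the domain from a face touching `π` to a neighbour of a sector different from `j`. -/
def ArmB (D : Dom) (j : Fin 3) (π : Set V) (s : Finset V) : Prop :=
  ∃ u w : V, Con ((D.U : Set V) \ (s : Set V)) u w ∧ (∃ f d, D.Bf π f ∧ S f d = u) ∧
    ∃ v, v ∉ D.U ∧ TAdj w v ∧ D.sec v ≠ j

/-- From `CA` (`z = a j`, `β = 1` on the sector `j`, `0` else) and `WS`; first exit from the domain. -/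
def WPW_stmt : Prop := ∀ (D : Dom) (j : Fin 3) (π : Set V),
  (∀ f d, D.Bf π f → S f d ∉ D.U → D.sec (S f d) ≠ j) → D.Mx j π ≤ prob D.U (ArmW D j π)

/-- The same for black. -/
def WPB_stmt : Prop := ∀ (D : Dom) (j : Fin 3) (π : Set V),
  (∀ f d, D.Bf π f → S f d ∉ D.U → D.sec (S f d) = j) → D.Mx j π ≤ prob D.U (ArmB D j π)

/-! ## Boundary values -/

/-- The corner: all configurations with `z = a j` have the source joined to `j`. -/
def AC_stmt : Prop := ∀ (D : Dom) (j : Fin 3), D.P j (D.a j) = 1

/-- Four boundary sources alternate: `part` tells whether a site of the sector `j` is before (`1`) or after (`0`)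
the boundary dart `p`. -/
def Part (D : Dom) (j : Fin 3) (p : Dart) (part : V → ZMod 2) : Prop :=
  D.FU p.1 ∧ S p.1 p.2 ∉ D.U ∧ S p.1 (p.2 + 1) ∉ D.U ∧ D.sec (S p.1 p.2) = j ∧
  D.sec (S p.1 (p.2 + 1)) = j ∧
  (∀ x : Dart, D.FU x.1 → S x.1 x.2 ∉ D.U → S x.1 (x.2 + 1) ∉ D.U → D.sec (S x.1 x.2) = j →
    D.sec (S x.1 (x.2 + 1)) = j →
      part (S x.1 x.2) + part (S x.1 (x.2 + 1)) = (if x = p then 1 else 0)) ∧
  part (S p.1 p.2) = 1 ∧ part (S (D.a (j + 1)).1 ((D.a (j + 1)).2 + 1)) = 1 ∧
  part (S (D.a (j + 2)).1 (D.a (j + 2)).2) = 0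

/-- The exterior colouring with four arcs: `part` on the sector `j`, white on the sector `j + 1`, black on `j + 2`. -/
noncomputable def beta4 (D : Dom) (j : Fin 3) (part : V → ZMod 2) (v : V) : ZMod 2 :=
  if D.sec v = j then part v else if D.sec v = j + 1 then 1 else 0

/-- `beta4` is compatible with a source at `p`. -/
def B4_stmt : Prop := ∀ (D : Dom) (j : Fin 3) (p : Dart) (part : V → ZMod 2), Part D j p part →
  Bdry D (beta4 D j part) p

/-- The source `p` in the sector `j` is never joined to the opposite corner `j`: by `GP` (`K = FU`, colouring from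
`CA` and `B4`) the incidences `(p, false)` and `(star (a j), true)` have `L p = part (S p) = 1` and
`L (star (a j)) = c (S (a j) + 1) = 0` (sector `j + 2`), but joined ends of different kinds have the same `L`. -/
def ARC_stmt : Prop := ∀ (D : Dom) (j : Fin 3) (p : Dart) (part : V → ZMod 2),
  Part D j p part → D.P j p = 0

/-- Black path from the part of the sector `j` after `p` to the sector `j + 2`. -/
def XB (D : Dom) (j : Fin 3) (part : V → ZMod 2) (s : Finset V) : Prop :=
  ∃ u w : V, Con ((D.U : Set V) \ (s : Set V)) u w ∧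
    (∃ v, v ∉ D.U ∧ TAdj u v ∧ D.sec v = j ∧ part v = 0) ∧ ∃ v, v ∉ D.U ∧ TAdj w v ∧ D.sec v = j + 2

/-- White path from the part of the sector `j` before `p` to the sector `j + 1`. -/
def XW (D : Dom) (j : Fin 3) (part : V → ZMod 2) (s : Finset V) : Prop :=
  ∃ u w : V, Con (s : Set V) u w ∧
    (∃ v, v ∉ D.U ∧ TAdj u v ∧ D.sec v = j ∧ part v = 1) ∧ ∃ v, v ∉ D.U ∧ TAdj w v ∧ D.sec v = j + 1

/-- `p` joined to the corner `j + 1`: the black sides of the wall contain a black path `XB` (`WS` from `p` to
`star (a (j + 1))`, last exit and first entrance of the exterior; exterior sites of `part = 0` in the sector `j` and of the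
sector `j + 2` have no common face of the domain by `Part` and `D.only`). -/
def ZDB_stmt : Prop := ∀ (D : Dom) (j : Fin 3) (p : Dart) (part : V → ZMod 2),
  Part D j p part → D.P (j + 1) p ≤ prob D.U (XB D j part)

/-- `p` joined to the corner `j + 2`: white path. -/
def ZDW_stmt : Prop := ∀ (D : Dom) (j : Fin 3) (p : Dart) (part : V → ZMod 2),
  Part D j p part → D.P (j + 2) p ≤ prob D.U (XW D j part)

/-- Not both. By `EX` and `ARC` (its proof) the source `p` of the four-arc colouring is joined to `j + 1` or `j + 2`.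
If to `j + 1`: the class `ζ` of `p` alone is even and symmetric with boundary walls `p`, `a (j + 1)`: by Poincare it is `dc'`
with `c' = 1` exactly on the exterior sites of sector `j` with `part = 1` (outside). A white path `XW` with its two
exterior ends has no walls, so `c'` is constant on it, but it is `1` on one end and `0` on the other. If to `j + 2`: the same with the black
path `XB` and `c' = 1` on the sector `j`, `part = 0`. -/
def NB_stmt : Prop := ∀ (D : Dom) (j : Fin 3) (p : Dart) (part : V → ZMod 2),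
  Part D j p part → ∀ s ⊆ D.U, ¬ (XB D j part s ∧ XW D j part s)

end Pool.Agent.helper82.SC
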