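import Pool.Agent.helper82.SC.SpecA

/-!
# sp: Cardy part, the square (stage B)

The square as a discrete domain, connecting paths, and continuity / boundary values from the
one-arm bound. Rules as in `SpecA`; modules `sp:C<XX>` prove `XX_stmt` below
(any other statement of SpecA, SpecB may be a hypothesis).
Paper: /team-store/SP_CARDY_helper82.md.
-/

namespace Pool.Agent.helper82.SC

open Relation Filter Topology

/-- A discrete domain which is the `n × n` square. -/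
def IsSq (D : Dom) (n : ℕ) : Prop :=
  D.U = Usq n ∧ (∀ v, D.sec v = secsq n v) ∧ ∀ m, D.a m = asq n m

/-! ## The square is a domain -/

/-- Corners and boundary of the square (integer arithmetic; `omega` after unfolding, `mem_Usq`).
In row `j` the sites are `0 ≤ 2 i + j ≤ 2 n`. -/
def SQT_stmt : Prop := ∀ n : ℕ, 1 ≤ n →
  (∀ m, S (asq n m).1 ((asq n m).2 + 2) ∈ Usq n ∧ S (asq n m).1 (asq n m).2 ∉ Usq n ∧
    S (asq n m).1 ((asq n m).2 + 1) ∉ Usq n ∧ secsq n (S (asq n m).1 (asq n m).2) = m + 1 ∧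
    secsq n (S (asq n m).1 ((asq n m).2 + 1)) = m + 2) ∧
  (∀ f d, S f (d + 2) ∈ Usq n → S f d ∉ Usq n → S f (d + 1) ∉ Usq n →
    secsq n (S f d) ≠ secsq n (S f (d + 1)) → ∃ m, (f, d) = asq n m) ∧
  (∀ f d, S f (d + 2) ∈ Usq n → S f d ∉ Usq n → S f (d + 1) ∉ Usq n →
    S (tw f d) (d + 2) ∉ Usq n)

/-- Poincare lemma for the square. `c (i, j) = ∑_{k < i} ψ (horizontal side of (k, j))` (a finite sum, as `ψ` vanishes
far away). Strip: `ψ (slanted side from (i, j) to (i, j+1)) = ∑_{k < i} (ψ (hor (k, j)) + ψ (hor (k, j + 1)))` by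
summing the evenness of `up (k, j)`, `down (k, j)` over `k < i`; so `ψ = dc` on slanted sides, then on diagonal
sides (evenness). `c = 0` to the left of the square; to the right of the square `c` is the row total, equal for all rows
by the strip identity, `0` for the rows outside. Also `c = 0` below and above. -/
def SQP_stmt : Prop := ∀ n : ℕ, 1 ≤ n → ∀ ψ : Dart → ZMod 2,
  (∀ f, ψ (f, 0) + ψ (f, 1) + ψ (f, 2) = 0) → (∀ x, ψ (star x) = ψ x) →
  (∀ x : Dart, S x.1 x.2 ∉ Usq n → S x.1 (x.2 + 1) ∉ Usq n → ψ x = 0) →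
  ∃ c : V → ZMod 2, (∀ v, v ∉ Usq n → c v = 0) ∧
    ∀ x : Dart, ψ x = c (S x.1 x.2) + c (S x.1 (x.2 + 1))

/-- Connecting sets in the square: go from the row of `u` to the row of `v` in a zigzag near the abscissa
of `u`, then horizontally. -/
def PT_stmt : Prop := ∀ n : ℕ, 1 ≤ n → ∀ u ∈ Usq n, ∀ v ∈ Usq n,
  ∃ π : Set V, π ⊆ (Usq n : Set V) ∧ Cnd π ∧ u ∈ π ∧ v ∈ π ∧
    ∀ w ∈ π, ‖ps w - ps u‖ ≤ 2 * ‖ps u - ps v‖ + 2

/-- The faces of the square are connected, from `PT` (or directly): all faces around a site of the square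
belong to the domain. -/
def SQF_stmt : Prop := ∀ n : ℕ, 1 ≤ n → ∀ f g : F, (∃ d, S f d ∈ Usq n) →
  (∃ d, S g d ∈ Usq n) →
    ReflTransGen (fun f g => (∃ d, g = tw f d) ∧ ∃ d, S g d ∈ Usq n) f g

/-- Assembly: from `SQT`, `SQP`, `SQF`. -/
def DS_stmt : Prop := ∀ n : ℕ, 1 ≤ n → ∃ D : Dom, IsSq D n

/-! ## The boundary darts of the square -/

/-- Every boundary dart inside a sector splits it. `part v = 1` iff `v` comes before or at `S p` counterclockwise: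
sector 1 (top): `(S p).1 ≤ v.1`; sector 2 (left): `(S p).2 ≤ v.2`; sector 0: `v.2 < 0 ∧ v.1 ≤ (S p).1` if `S p` is
below the square, and `v.2 ≤ (S p).2` if `S p` is to the right (care at the lower right corner). -/
def PX_stmt : Prop := ∀ (n : ℕ) (D : Dom), 1 ≤ n → IsSq D n → ∀ (j : Fin 3) (p : Dart), D.FU p.1 →
  S p.1 p.2 ∉ D.U → S p.1 (p.2 + 1) ∉ D.U → D.sec (S p.1 p.2) = j →
    D.sec (S p.1 (p.2 + 1)) = j → ∃ part, Part D j p part

/-- The lower right corner. -/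
def zD (n : ℕ) : Dart := ((((n : ℤ), -1), true), 2)

/-- Sites below the square are before `zD`. -/
def partD (v : V) : ZMod 2 := if v.2 < 0 then 1 else 0

/-- `zD` splits the sector `0` into bottom and right. -/
def PD_stmt : Prop := ∀ (n : ℕ) (D : Dom), 1 ≤ n → IsSq D n → Part D 0 (zD n) partD

/-- The black path of `XB` is the left right crossing. -/
def LRX_stmt : Prop := ∀ (n : ℕ) (D : Dom), 1 ≤ n → IsSq D n → ∀ s ⊆ Usq n,
  (XB D 0 partD s ↔ LRb n s)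

/-! ## One-arm bound and its consequences -/

/-- A white path from distance at most `r` of `x` to distance at least `R`. -/
def ArmE (x : ℂ) (r R : ℝ) (s : Finset V) : Prop :=
  ∃ u w : V, Con (s : Set V) u w ∧ ‖ps u - x‖ ≤ r ∧ R ≤ ‖ps w - x‖

/-- ONE-ARM BOUND (from the RSW part of the project; no module here). -/
def ARM_stmt : Prop := ∃ C a : ℝ, 0 < a ∧ 0 ≤ C ∧ ∀ (U : Finset V) (x : ℂ) (r R : ℝ), 1 ≤ r →
  r ≤ R → prob U (ArmE x r R) ≤ C * (r / R) ^ a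

/-- Colour exchange and monotonicity: `s ↦ U \ s` is a bijection of the subsets of `U`. -/
def SB_stmt : Prop := (∀ (U : Finset V) (E : Finset V → Prop),
    prob U (fun s => E (U \ s)) = prob U E) ∧
  (∀ (U : Finset V) (E E' : Finset V → Prop), (∀ s ⊆ U, E s → E' s) → prob U E ≤ prob U E') ∧
  (∀ (U : Finset V) (E : Finset V → Prop), 0 ≤ prob U E ∧ prob U E ≤ 1) ∧
  (∀ (U : Finset V) (E E' : Finset V → Prop), (∀ s ⊆ U, ¬ (E s ∧ E' s)) →
    prob U E + prob U E' ≤ 1)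

/-- The corners of the unit square: `I`, `0`, `1 + I`. -/
noncomputable def co (m : Fin 3) : ℂ :=
  if m = 0 then Complex.I else if m = 1 then 0 else 1 + Complex.I

/-- The closed unit square. -/
def Qs : Set ℂ := {w | 0 ≤ w.re ∧ w.re ≤ 1 ∧ 0 ≤ w.im ∧ w.im ≤ 1}

/-- The arcs: `0` bottom and right, `1` top, `2` left. -/
def arc (j : Fin 3) : Set ℂ :=
  {w | w ∈ Qs ∧ (if j = 0 then w.im = 0 ∨ w.re = 1 else if j = 1 then w.im = 1 else w.re = 0)}

/-- Positions: sites of the square are near `n Q`, exterior sites of faces of the domain are near their arc, the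
corner darts are near the corners, and every point of an arc is near a boundary dart of its sector or a corner dart.
All constants are generous. -/
def GP1_stmt : Prop := ∀ (n : ℕ) (D : Dom), 1 ≤ n → IsSq D n →
  (∀ v ∈ D.U, ∃ w ∈ Qs, ‖ps v - n * w‖ ≤ 2) ∧
  (∀ f, D.FU f → ∀ d, S f d ∉ D.U → ∃ w ∈ arc (D.sec (S f d)), ‖ps (S f d) - n * w‖ ≤ 4) ∧
  (∀ m, ‖pd (D.a m) - n * co m‖ ≤ 4) ∧
  (∀ w ∈ Qs, ∃ x : Dart, D.FU x.1 ∧ ‖pd x - n * w‖ ≤ 4) ∧
  (∀ j, ∀ w ∈ arc j, ∃ p : Dart, D.FU p.1 ∧ ‖pd p - n * w‖ ≤ 8 ∧ ((∃ m, m ≠ j ∧ p = D.a m) ∨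
    (S p.1 p.2 ∉ D.U ∧ S p.1 (p.2 + 1) ∉ D.U ∧ D.sec (S p.1 p.2) = j ∧
      D.sec (S p.1 (p.2 + 1)) = j)))

/-- Distances in the unit square: a corner is far from the opposite arc, and a point near two arcs is
near the corner between them (`m ≠ j`, `m ≠ k`). -/
def GQ_stmt : Prop := (∀ m, ∀ w ∈ arc m, 1 ≤ ‖w - co m‖) ∧
  ∀ (j k m : Fin 3), j ≠ k → m ≠ j → m ≠ k → ∀ ρ : ℝ, ρ ≤ 1 / 4 → ∀ w ∈ Qs,
    ∀ u ∈ arc j, ∀ v ∈ arc k, ‖w - u‖ ≤ ρ → ‖w - v‖ ≤ ρ → ‖w - co m‖ ≤ 2 * ρ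

/-- Two darts at distance `≤ r` (`r ≥ 1`) touch a common connected set `π` of the domain; all sites of all faces which touch `π`
are at distance at most `8 r + 8` of the first dart. From `PT`. -/
def PI_stmt : Prop := ∀ (n : ℕ) (D : Dom), 1 ≤ n → IsSq D n → ∀ x y : Dart, D.FU x.1 → D.FU y.1 →
  ∃ π : Set V, π ⊆ (D.U : Set V) ∧ Cnd π ∧ D.Bf π x.1 ∧ D.Bf π y.1 ∧
    ∀ f, D.Bf π f → ∀ d, ‖ps (S f d) - pd x‖ ≤ 8 * ‖pd x - pd y‖ + 8

/-- White arm: if all points of `n` times the arc `j` are at distance at least `R` of the dart `x` and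
`r = 8 ‖pd x - pd y‖ + 8 < R - 8`, then `P j` changes little. From `PI`, `CN`, `WPW`, `GP1`. -/
def AW_stmt : Prop := ∀ (n : ℕ) (D : Dom), 1 ≤ n → IsSq D n → ∀ (j : Fin 3) (x y : Dart) (R : ℝ),
  D.FU x.1 → D.FU y.1 → (∀ w ∈ arc j, R ≤ ‖pd x - n * w‖) → 8 * ‖pd x - pd y‖ + 8 < R - 8 →
    |D.P j x - D.P j y| ≤ prob D.U (ArmE (pd x) (8 * ‖pd x - pd y‖ + 8) (R - 8))

/-- Black arm: the same when the two other arcs are far. From `PI`, `CN`, `WPB`, `GP1`, `SB`. -/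
def AB_stmt : Prop := ∀ (n : ℕ) (D : Dom), 1 ≤ n → IsSq D n → ∀ (j : Fin 3) (x y : Dart) (R : ℝ),
  D.FU x.1 → D.FU y.1 → (∀ k, k ≠ j → ∀ w ∈ arc k, R ≤ ‖pd x - n * w‖) →
    8 * ‖pd x - pd y‖ + 8 < R - 8 →
    |D.P j x - D.P j y| ≤ prob D.U (ArmE (pd x) (8 * ‖pd x - pd y‖ + 8) (R - 8))

/-- Corner values. From `AW` (`y = a m`), `AC`, `ARM`, `GQ`, `GP1`. -/
def BC_stmt : Prop := ∀ ε : ℝ, 0 < ε → ∃ δ : ℝ, 0 < δ ∧ ∃ N : ℕ, ∀ n ≥ N, ∀ D, IsSq D n →
  ∀ (m : Fin 3) (x : Dart), D.FU x.1 → ‖pd x - n * co m‖ ≤ δ * n → 1 - ε ≤ D.P m x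

/-- Uniform continuity. From `AW`, `AB`, `BC`, `SUM`, `ARM`, `GQ`, `GP1`: for `x` either the arc `j` is far, or the two other arcs
are far, or `x` is near a corner `m ≠ j` where `P m ≥ 1 - ε`. -/
def EQ_stmt : Prop := ∀ ε : ℝ, 0 < ε → ∃ δ : ℝ, 0 < δ ∧ ∃ N : ℕ, ∀ n ≥ N, ∀ D, IsSq D n →
  ∀ x y : Dart, D.FU x.1 → D.FU y.1 → ‖pd x - pd y‖ ≤ δ * n → ∀ j, |D.P j x - D.P j y| ≤ ε

/-- Values near the opposite arc. From `EQ`, `GP1`, `ARC`, `PX` (`P j p = 0` for the boundary darts of the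
sector `j`), `BC` and `SUM` near the corners. -/
def BA_stmt : Prop := ∀ ε : ℝ, 0 < ε → ∃ δ : ℝ, 0 < δ ∧ ∃ N : ℕ, ∀ n ≥ N, ∀ D, IsSq D n →
  ∀ (j : Fin 3) (x : Dart) (w : ℂ), D.FU x.1 → w ∈ arc j → ‖pd x - n * w‖ ≤ δ * n → D.P j x ≤ ε

end Pool.Agent.helper82.SC
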