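import Pool.Agent.helper82.SC.SpecB

/-!
# sp: Cardy part, complex analysis and conclusion (stage C)

Rules as in `SpecA`: modules `sp:C<XX>` prove `XX_stmt` (any other statement of SpecA, SpecB, SpecC may
be a hypothesis). Paper: /team-store/SP_CARDY_helper82.md, section 4.
-/

namespace Pool.Agent.helper82.SC

open Relation Filter Topology Complex MeasureTheory
open scoped Interval

/-- Faces with a site in the square. -/
def FUn (n : ℕ) (f : F) : Prop := ∃ d, S f d ∈ Usq n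

/-- The properties of the three observables which are used in the limit (`n ≥ 1`). -/
structure Fam (P : ℕ → Fin 3 → Dart → ℝ) : Prop where
  bd : ∀ n ≥ 1, ∀ j x, FUn n x.1 → 0 ≤ P n j x ∧ P n j x ≤ 1
  sum : ∀ n ≥ 1, ∀ x, FUn n x.1 → ∑ j, P n j x = 1
  sym : ∀ n ≥ 1, ∀ j x, P n j (star x) = P n j x
  loc : ∀ n ≥ 1, ∀ f, (∀ d, S f d ∈ Usq n) →
    ∑ d : Fin 3, ∑ j : Fin 3, tau ^ ((d : ℕ) + (j : ℕ)) * (P n j (f, d) : ℂ) = 0
  eq : ∀ ε : ℝ, 0 < ε → ∃ δ : ℝ, 0 < δ ∧ ∃ N : ℕ, ∀ n ≥ N, ∀ x y : Dart, FUn n x.1 → FUn n y.1 →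
    ‖pd x - pd y‖ ≤ δ * n → ∀ j, |P n j x - P n j y| ≤ ε
  bc : ∀ ε : ℝ, 0 < ε → ∃ δ : ℝ, 0 < δ ∧ ∃ N : ℕ, ∀ n ≥ N, ∀ (m : Fin 3) (x : Dart), FUn n x.1 →
    ‖pd x - n * co m‖ ≤ δ * n → 1 - ε ≤ P n m x
  ba : ∀ ε : ℝ, 0 < ε → ∃ δ : ℝ, 0 < δ ∧ ∃ N : ℕ, ∀ n ≥ N, ∀ (j : Fin 3) (x : Dart) (w : ℂ),
    FUn n x.1 → w ∈ arc j → ‖pd x - n * w‖ ≤ δ * n → P n j x ≤ ε

/-- The observables of the square form such a family. From `DS`, `SUM`, `SY`, `LR`, `EQ`, `BC`, `BA` (and `0 ≤ P`, `P ≤ 1` by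
`SUM`); `P n j x = D.P j x` for a chosen `D` with `IsSq D n`, for all `D` with `IsSq D n` the same value. -/
def FM_stmt : Prop := ∃ P : ℕ → Fin 3 → Dart → ℝ, Fam P ∧
  ∀ n ≥ 1, ∀ D, IsSq D n → ∀ j x, P n j x = D.P j x

/-- Every point of the square is near darts. -/
def DN_stmt : Prop := ∀ n ≥ 1, ∀ w ∈ Qs, ∃ x : Dart, FUn n x.1 ∧ ‖pd x - n * w‖ ≤ 4

/-- Limit functions along an ultrafilter. Choose for every `n`, `w` a dart `X n w` with `DN`; `h j w` = the limit of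
`P n j (X n w)` in the compact interval `[0, 1]`. Continuity by `eq`; uniformity by `eq` and a finite net of the
compact square. -/
def LIM_stmt : Prop := ∀ P, Fam P → ∀ 𝒰 : Ultrafilter ℕ, (𝒰 : Filter ℕ) ≤ atTop →
  ∃ h : Fin 3 → ℂ → ℝ, (∀ j, ContinuousOn (h j) Qs) ∧
    ∀ ε : ℝ, 0 < ε → ∀ᶠ n in (𝒰 : Filter ℕ), ∀ (j : Fin 3) (x : Dart) (w : ℂ), FUn n x.1 →
      w ∈ Qs → ‖pd x - n * w‖ ≤ 8 → |P n j x - h j w| ≤ ε

/-- Uniform convergence of the observables (the conclusion of `LIM`). -/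
def Lm (P : ℕ → Fin 3 → Dart → ℝ) (𝒰 : Ultrafilter ℕ) (h : Fin 3 → ℂ → ℝ) : Prop :=
  (𝒰 : Filter ℕ) ≤ atTop ∧ (∀ j, ContinuousOn (h j) Qs) ∧
    ∀ ε : ℝ, 0 < ε → ∀ᶠ n in (𝒰 : Filter ℕ), ∀ (j : Fin 3) (x : Dart) (w : ℂ), FUn n x.1 →
      w ∈ Qs → ‖pd x - n * w‖ ≤ 8 → |P n j x - h j w| ≤ ε

/-- Boundary values of the limit. From `DN`, `sum`, `bc`, `ba`. -/
def LB_stmt : Prop := ∀ P 𝒰 h, Fam P → Lm P 𝒰 h →
  (∀ w ∈ Qs, ∑ j, h j w = 1) ∧ (∀ j, ∀ w ∈ arc j, h j w = 0) ∧ (∀ m, h m (co m) = 1)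

/-- The complex observable. -/
noncomputable def FF (h : Fin 3 → ℂ → ℝ) (w : ℂ) : ℂ := ∑ j : Fin 3, tau ^ (j : ℕ) * (h j w : ℂ)

/-- The horizontal side from `(i, j)` to `(i + 1, j)`. -/
def hor (i j : ℤ) : Dart := (((i, j), false), 0)

/-- Discrete contour (exact part): a symmetric function with the local relation at all faces of two strips. Sum
`∑ d, tau ^ d * G (f, d) = 0` over `up (i, j)` minus `down (i, j)`, `i₀ ≤ i < i₁`, and over the next strip shifted by `-1`;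
everything telescopes. `sl i j` = slanted side from `(i, j)` to `(i, j + 1)` = `(((i, j), false), 2)`. -/
def CE_stmt : Prop := ∀ (G : Dart → ℂ) (i₀ : ℤ) (L : ℕ) (j : ℤ), (∀ x, G (star x) = G x) →
  (∀ i : ℤ, i₀ ≤ i → i < i₀ + L → ∀ b : Bool, ∑ d : Fin 3, tau ^ (d : ℕ) * G (((i, j), b), d) = 0) →
  (∀ i : ℤ, i₀ - 1 ≤ i → i < i₀ - 1 + L → ∀ b : Bool,
    ∑ d : Fin 3, tau ^ (d : ℕ) * G (((i, j + 1), b), d) = 0) →
  (∑ k ∈ Finset.range L, G (hor (i₀ + k) j)) - (∑ k ∈ Finset.range L, G (hor (i₀ - 1 + k) (j + 2)))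
    + G (hor (i₀ - 1) (j + 1)) - G (hor (i₀ - 1 + L) (j + 1))
    + tau ^ 2 * (G (((i₀, j), false), 2) + G (((i₀ - 1, j + 1), false), 2))
    - tau ^ 2 * (G (((i₀ + L, j), false), 2) + G (((i₀ - 1 + L, j + 1), false), 2)) = 0

/-- Discrete contour with error: `K` double strips. From `CE`, `1 + 2 * tau ^ 2 = - I √3`, and the oscillation
`‖G x - G y‖ ≤ ε` at distance `≤ 3` (sides meeting the region). -/
def CON_stmt : Prop := ∀ (G : Dart → ℂ) (i₀ : ℤ) (L K : ℕ) (j : ℤ) (ε : ℝ), 0 ≤ ε →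
  (∀ x, G (star x) = G x) →
  (∀ (k : ℕ) (i : ℤ) (b b' : Bool), k < K →
    (if b' then i₀ - k - 1 ≤ i ∧ i < i₀ - k - 1 + L else i₀ - k ≤ i ∧ i < i₀ - k + L) →
    ∑ d : Fin 3, tau ^ (d : ℕ) * G (((i, j + 2 * k + (if b' then 1 else 0)), b), d) = 0) →
  (∀ (k : ℕ) (x y : Dart), k < K → (x.1.1.2 = j + 2 * k ∨ x.1.1.2 = j + 2 * k + 1) →
    (y.1.1.2 = j + 2 * k ∨ y.1.1.2 = j + 2 * k + 1) →
    i₀ - k - 1 ≤ x.1.1.1 → x.1.1.1 ≤ i₀ - k + L → i₀ - k - 1 ≤ y.1.1.1 → y.1.1.1 ≤ i₀ - k + L →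
    ‖pd x - pd y‖ ≤ 3 → ‖G x - G y‖ ≤ ε) →
  ‖(∑ k ∈ Finset.range L, G (hor (i₀ + k) j)) -
      (∑ k ∈ Finset.range L, G (hor (i₀ - K + k) (j + 2 * K))) +
      I * (Real.sqrt 3 : ℂ) * (∑ k ∈ Finset.range K,
        (G (hor (i₀ - k + L) (j + 2 * k)) - G (hor (i₀ - k) (j + 2 * k))))‖ ≤ 12 * K * ε

/-- Riemann sums. -/
def RS_stmt : Prop := ∀ (φ : ℝ → ℂ) (a t ε : ℝ) (K : ℕ), 0 ≤ t → 0 ≤ ε →
  ContinuousOn φ (Set.Icc a (a + K * t)) →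
  (∀ x ∈ Set.Icc a (a + K * t), ∀ y ∈ Set.Icc a (a + K * t), |x - y| ≤ t → ‖φ x - φ y‖ ≤ ε) →
  ‖(∑ k ∈ Finset.range K, (t : ℂ) * φ (a + k * t)) - ∫ x in a..(a + K * t), φ x‖ ≤ K * t * ε

/-- Rectangles. From `CON` (`G = ∑ j, tau ^ j * P n j`, divided by `n`), `RS`, `Lm` and uniform continuity; sites
`(i, j)` are at abscissa `i + j / 2` and height `j √3 / 2`; for `n` large all faces involved are in the square. -/
def RC_stmt : Prop := ∀ P 𝒰 h, Fam P → Lm P 𝒰 h → ∀ x₀ x₁ y₀ y₁ : ℝ, 0 < x₀ → x₀ ≤ x₁ → x₁ < 1 →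
  0 < y₀ → y₀ ≤ y₁ → y₁ < 1 →
    (∫ x in x₀..x₁, FF h (x + y₀ * I)) - (∫ x in x₀..x₁, FF h (x + y₁ * I)) +
      I * (∫ y in y₀..y₁, FF h (x₁ + y * I)) - I * (∫ y in y₀..y₁, FF h (x₀ + y * I)) = 0

/-- Morera: from Mathlib `Complex.IsConservativeOn.isExactOn_ball`, `IsExactOn.differentiableOn` on balls
in the open square (all four orientations of the rectangle by symmetry of the formula). -/
def MO_stmt : Prop := ∀ f : ℂ → ℂ, ContinuousOn f Qs →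
  (∀ x₀ x₁ y₀ y₁ : ℝ, 0 < x₀ → x₀ ≤ x₁ → x₁ < 1 → 0 < y₀ → y₀ ≤ y₁ → y₁ < 1 →
    (∫ x in x₀..x₁, f (x + y₀ * I)) - (∫ x in x₀..x₁, f (x + y₁ * I)) +
      I * (∫ y in y₀..y₁, f (x₁ + y * I)) - I * (∫ y in y₀..y₁, f (x₀ + y * I)) = 0) →
  DifferentiableOn ℂ f (interior Qs)

/-- Rigidity. `d` continuous on the closed square, analytic inside, `(d w) ^ 3` purely imaginary on the boundary and
`d 0 = 0`: then `d = 0` on the closed square. Proof: `exp (± (d w) ^ 3)` has norm `1` on the boundary, so norm `≤ 1`, so `= 1`, inside; the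
function is constant (maximum modulus), `exp (t (d w) ^ 3) = 1` for all real `t`, so `d ^ 3 = 0`. -/
def RG_stmt : Prop := ∀ d : ℂ → ℂ, ContinuousOn d Qs → DifferentiableOn ℂ d (interior Qs) →
  (∀ w ∈ frontier Qs, ((d w) ^ 3).re = 0) → d 0 = 0 → ∀ w ∈ Qs, d w = 0

/-- Uniqueness at the fourth corner `1`. `d w = FF h w - conj (FF h (1 + I - I * conj w))`; the reflection
`w ↦ 1 + I - I * conj w` exchanges `0` and `1 + I`, fixes `I` and `1`, maps the arc `0` to itself and exchanges the arcs `1`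
and `2`; on the arc `j` the value is a real multiple of `tau - tau ^ 2` (`j = 0`), `1 - tau ^ 2` (`j = 1`), `1 - tau` (`j = 2`), whose cubes
are purely imaginary. `RG` gives `FF h 1` real, so `h 1 1 = h 2 1`, and `h 0 1 = 0`. -/
def UN_stmt : Prop := ∀ h : Fin 3 → ℂ → ℝ, (∀ j, ContinuousOn (h j) Qs) →
  DifferentiableOn ℂ (FF h) (interior Qs) → (∀ w ∈ Qs, ∑ j, h j w = 1) →
  (∀ j, ∀ w ∈ arc j, h j w = 0) → (∀ m, h m (co m) = 1) → h 1 1 = 1 / 2 ∧ h 2 1 = 1 / 2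

/-- The limit of the observables at the fourth corner. From `LIM`, `LB`, `RC`, `MO`, `UN` for every ultrafilter
(`tendsto_iff_ultrafilter`); `pd (zD n)` is at distance `≤ 2` of `n`. -/
def AN_stmt : Prop := ∀ P, Fam P →
  Tendsto (fun n => P n 1 (zD n)) atTop (𝓝 (1 / 2)) ∧
    Tendsto (fun n => P n 2 (zD n)) atTop (𝓝 (1 / 2))

/-- THE RESULT: the crossing probability of the square tends to one half. From `FM`, `AN`, `DS`, `PD`, `ZDB`, `ZDW`, `NB`, `LRX`, `SB`. -/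
def CARDY_stmt : Prop := Tendsto (fun n : ℕ => prob (Usq n) (LRb n)) atTop (𝓝 (1 / 2))

end Pool.Agent.helper82.SC
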